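import Pool.Agent.Lib.MP_e46711_an.DefsA

/-!
# Modules A1, A2: the thin ring is a smooth domain; `C1per` functions as functions on the plane
-/

open Set Filter Topology MeasureTheory
open scoped ContDiff

namespace Pool.Agent.Lib.MP_e46711_an.H70

/-- the plane -/
abbrev PL := EuclideanSpace ℝ (Fin 2)

/-- identification with `ℂ` -/
noncomputable def cc : PL ≃ₗᵢ[ℝ] ℂ := Complex.orthonormalBasisOneI.repr.symm

theorem cc_apply (z : PL) : cc z = (z 0 : ℂ) + z 1 * Complex.I :=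
  Complex.orthonormalBasisOneI_repr_symm_apply z

theorem cc_re (z : PL) : (cc z).re = z 0 := by rw [cc_apply]; simp
theorem cc_im (z : PL) : (cc z).im = z 1 := by rw [cc_apply]; simp
theorem norm_cc (z : PL) : ‖cc z‖ = ‖z‖ := cc.norm_map z
theorem cc_ne {z : PL} (hz : z ≠ 0) : cc z ≠ 0 := fun h => hz (by simpa using h)

/-- the angular coordinate -/
noncomputable def sc (ℓ : ℝ) (z : PL) : ℝ := ℓ / (2 * Real.pi) * (cc z).arg

theorem per_int {ℓ : ℝ} {Ψ : ℝ × PL → ℝ} (hper : ∀ s z, Ψ (s + ℓ, z) = Ψ (s, z)) (k : ℤ)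
    (s : ℝ) (z : PL) : Ψ (s + k * ℓ, z) = Ψ (s, z) := by
  have h : Function.Periodic (fun s => Ψ (s, z)) ℓ := fun s => hper s z
  exact h.int_mul k s

theorem arg_contDiffAt {n : WithTop ℕ∞} {w : ℂ} (hw : w ∈ Complex.slitPlane) :
    ContDiffAt ℝ n Complex.arg w := by
  have h1 : ContDiffAt ℝ n Complex.log w := (Complex.contDiffAt_log hw).restrict_scalars ℝ
  have h2 : ContDiffAt ℝ n (fun w => Complex.imCLM (Complex.log w)) w :=
    Complex.imCLM.contDiff.contDiffAt.comp w h1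
  have h3 : Complex.arg = fun w => Complex.imCLM (Complex.log w) := by
    funext w
    rw [Complex.imCLM_apply, Complex.log_im]
  rw [h3]
  exact h2

theorem contDiffAt_per {ℓ : ℝ} {n : WithTop ℕ∞} (Ψ : ℝ × PL → ℝ)
    (hper : ∀ s z, Ψ (s + ℓ, z) = Ψ (s, z)) {z0 : PL} (hz : z0 ≠ 0)
    (hΨ : ∀ s, ContDiffAt ℝ n Ψ (s, z0)) : ContDiffAt ℝ n (fun z => Ψ (sc ℓ z, z)) z0 := by
  by_cases hs : cc z0 ∈ Complex.slitPlane
  · have h1 : ContDiffAt ℝ n (sc ℓ) z0 := by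
      refine contDiffAt_const.mul ?_
      exact (arg_contDiffAt hs).comp z0 cc.contDiff.contDiffAt
    have h2 : ContDiffAt ℝ n (fun z => (sc ℓ z, z)) z0 := h1.prodMk contDiffAt_id
    exact ContDiffAt.comp (g := Ψ) (f := fun z => (sc ℓ z, z)) z0 (hΨ _) h2
  · have hs' : - cc z0 ∈ Complex.slitPlane := by
      rw [Complex.mem_slitPlane_iff] at hs ⊢
      push Not at hs
      obtain ⟨h1, h2⟩ := hs
      left
      have h3 : (cc z0).re ≠ 0 := by
        intro h3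
        exact cc_ne hz (Complex.ext h3 h2)
      rw [Complex.neg_re]
      rcases lt_or_gt_of_ne h3 with h4 | h4
      · linarith
      · linarith
    have h1 : ContDiffAt ℝ n (fun z => ℓ / (2 * Real.pi) * (-cc z).arg + ℓ / 2) z0 := by
      refine (contDiffAt_const.mul ?_).add contDiffAt_const
      have : ContDiffAt ℝ n (fun z => Complex.arg ((fun z => - cc z) z)) z0 :=
        ContDiffAt.comp z0 (arg_contDiffAt hs') cc.contDiff.neg.contDiffAt
      exact this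
    have h2 : ContDiffAt ℝ n (fun z => (ℓ / (2 * Real.pi) * (-cc z).arg + ℓ / 2, z)) z0 :=
      h1.prodMk contDiffAt_id
    have h3 : ContDiffAt ℝ n (fun z => Ψ (ℓ / (2 * Real.pi) * (-cc z).arg + ℓ / 2, z)) z0 :=
      ContDiffAt.comp (g := Ψ) (f := fun z => (ℓ / (2 * Real.pi) * (-cc z).arg + ℓ / 2, z)) z0
        (hΨ _) h2
    refine h3.congr_of_eventuallyEq ?_
    filter_upwards [isOpen_ne.mem_nhds hz] with z hz'
    have h4 := Complex.arg_neg_coe_angle (cc_ne hz')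
    rw [← Real.Angle.coe_add, Real.Angle.angle_eq_iff_two_pi_dvd_sub] at h4
    obtain ⟨k, hk⟩ := h4
    have h5 : ℓ / (2 * Real.pi) * (-cc z).arg + ℓ / 2 = sc ℓ z + ((k + 1 : ℤ) : ℝ) * ℓ := by
      have h6 : (-cc z).arg = (cc z).arg + Real.pi + 2 * Real.pi * k := by linarith
      unfold sc
      rw [h6]
      have := Real.pi_pos.ne'
      push_cast
      field_simp
      ring
    rw [h5, per_int hper]

/-! ### the polar form of `Fmap` -/

theorem cc_Fmap (ℓ : ℝ) (h : ℝ → ℝ) (δ ρ s y : ℝ) : cc (Fmap ℓ h δ ρ (s, y)) =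
    ((ρ * Real.exp (2 * Real.pi * δ * h s * y / ℓ) : ℝ) : ℂ) *
      (((2 * Real.pi * s / ℓ : ℝ) : Real.Angle).cos +
        ((2 * Real.pi * s / ℓ : ℝ) : Real.Angle).sin * Complex.I) := by
  rw [cc_apply]
  have h0 : (Fmap ℓ h δ ρ (s, y)) 0 = ρ * Real.exp (2 * Real.pi * δ * h s * y / ℓ) *
    Real.cos (2 * Real.pi * s / ℓ) := rfl
  have h1 : (Fmap ℓ h δ ρ (s, y)) 1 = ρ * Real.exp (2 * Real.pi * δ * h s * y / ℓ) *
    Real.sin (2 * Real.pi * s / ℓ) := rfl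
  rw [h0, h1, Real.Angle.cos_coe, Real.Angle.sin_coe]
  push_cast
  ring

theorem norm_Fmap (ℓ : ℝ) (h : ℝ → ℝ) (δ : ℝ) {ρ : ℝ} (hρ : 0 < ρ) (s y : ℝ) :
    ‖Fmap ℓ h δ ρ (s, y)‖ = ρ * Real.exp (2 * Real.pi * δ * h s * y / ℓ) := by
  rw [← norm_cc, cc_Fmap, norm_mul, Complex.norm_real, Real.norm_of_nonneg (by positivity),
    Real.Angle.cos_coe, Real.Angle.sin_coe]
  have : ‖((Real.cos (2 * Real.pi * s / ℓ) : ℂ) + (Real.sin (2 * Real.pi * s / ℓ) : ℂ) * Complex.I)‖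
      = 1 := by
    rw [Complex.ofReal_cos, Complex.ofReal_sin]
    exact Complex.norm_cos_add_sin_mul_I _
  rw [this, mul_one]

theorem Fmap_ne {ℓ : ℝ} {h : ℝ → ℝ} {δ ρ : ℝ} (hρ : 0 < ρ) (s y : ℝ) :
    Fmap ℓ h δ ρ (s, y) ≠ 0 := by
  rw [← norm_pos_iff, norm_Fmap ℓ h δ hρ]
  positivity

theorem sc_Fmap {ℓ : ℝ} (hℓ : 0 < ℓ) (h : ℝ → ℝ) (δ : ℝ) {ρ : ℝ} (hρ : 0 < ρ) (s y : ℝ) :
    ∃ k : ℤ, sc ℓ (Fmap ℓ h δ ρ (s, y)) = s + k * ℓ := by
  have h1 := Complex.arg_mul_cos_add_sin_mul_I_coe_angle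
    (r := ρ * Real.exp (2 * Real.pi * δ * h s * y / ℓ)) (by positivity)
    ((2 * Real.pi * s / ℓ : ℝ) : Real.Angle)
  rw [← cc_Fmap, Real.Angle.angle_eq_iff_two_pi_dvd_sub] at h1
  obtain ⟨k, hk⟩ := h1
  refine ⟨k, ?_⟩
  have h2 : (cc (Fmap ℓ h δ ρ (s, y))).arg = 2 * Real.pi * s / ℓ + 2 * Real.pi * k := by linarith
  unfold sc
  rw [h2]
  have := Real.pi_pos.ne'
  field_simp

theorem Fmap_sc {ℓ : ℝ} (hℓ : 0 < ℓ) (h : ℝ → ℝ) {δ : ℝ} (hδ : 0 < δ) {ρ : ℝ} (hρ : 0 < ρ)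
    (hh : ∀ s, 0 < h s) {z : PL} (hz : z ≠ 0) :
    Fmap ℓ h δ ρ (sc ℓ z, ℓ / (2 * Real.pi) * Real.log (‖z‖ / ρ) / (δ * h (sc ℓ z))) = z := by
  have hpi := Real.pi_pos
  have hn : 0 < ‖z‖ := norm_pos_iff.2 hz
  have e1 : 2 * Real.pi * δ * h (sc ℓ z) *
      (ℓ / (2 * Real.pi) * Real.log (‖z‖ / ρ) / (δ * h (sc ℓ z))) / ℓ = Real.log (‖z‖ / ρ) := by
    have := hh (sc ℓ z)
    field_simp
  have e2 : ρ * Real.exp (Real.log (‖z‖ / ρ)) = ‖z‖ := by
    rw [Real.exp_log (by positivity)]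
    field_simp
  have e3 : 2 * Real.pi * (sc ℓ z) / ℓ = (cc z).arg := by
    unfold sc
    field_simp
  ext i
  fin_cases i
  · change ρ * Real.exp (2 * Real.pi * δ * h (sc ℓ z) *
      (ℓ / (2 * Real.pi) * Real.log (‖z‖ / ρ) / (δ * h (sc ℓ z))) / ℓ) *
      Real.cos (2 * Real.pi * (sc ℓ z) / ℓ) = z 0
    rw [e1, e2, e3, ← norm_cc, Complex.norm_mul_cos_arg, cc_re]
  · change ρ * Real.exp (2 * Real.pi * δ * h (sc ℓ z) *
      (ℓ / (2 * Real.pi) * Real.log (‖z‖ / ρ) / (δ * h (sc ℓ z))) / ℓ) *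
      Real.sin (2 * Real.pi * (sc ℓ z) / ℓ) = z 1
    rw [e1, e2, e3, ← norm_cc, Complex.norm_mul_sin_arg, cc_im]

theorem h_int {ℓ : ℝ} {h : ℝ → ℝ} (hper : ∀ s, h (s + ℓ) = h s) (k : ℤ) (s : ℝ) :
    h (s + k * ℓ) = h s := by
  have h : Function.Periodic h ℓ := hper
  exact h.int_mul k s

theorem mem_Om_iff {ℓ : ℝ} (hℓ : 0 < ℓ) {h : ℝ → ℝ} (hper : ∀ s, h (s + ℓ) = h s)
    (hh : ∀ s, 0 < h s) {δ : ℝ} (hδ : 0 < δ) {ρ : ℝ} (hρ : 0 < ρ) (z : PL) :
    z ∈ Om ℓ h δ ρ ↔ z ≠ 0 ∧ |ℓ / (2 * Real.pi) * Real.log (‖z‖ / ρ)| < δ * h (sc ℓ z) := by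
  have hpi := Real.pi_pos
  constructor
  · rintro ⟨⟨s, y⟩, ⟨-, hy⟩, rfl⟩
    refine ⟨Fmap_ne hρ s y, ?_⟩
    obtain ⟨k, hk⟩ := sc_Fmap hℓ h δ hρ s y
    rw [hk, h_int hper, norm_Fmap ℓ h δ hρ]
    have e1 : ρ * Real.exp (2 * Real.pi * δ * h s * y / ℓ) / ρ =
        Real.exp (2 * Real.pi * δ * h s * y / ℓ) := by field_simp
    have e2 : ℓ / (2 * Real.pi) * (2 * Real.pi * δ * h s * y / ℓ) = δ * h s * y := by field_simp
    rw [e1, Real.log_exp, e2, abs_mul, abs_of_pos (mul_pos hδ (hh s))]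
    have h1 : |y| < 1 := abs_lt.2 ⟨hy.1, hy.2⟩
    have h2 : 0 < δ * h s := mul_pos hδ (hh s)
    nlinarith
  · rintro ⟨hz, h1⟩
    refine ⟨(sc ℓ z, ℓ / (2 * Real.pi) * Real.log (‖z‖ / ρ) / (δ * h (sc ℓ z))), ⟨trivial, ?_⟩,
      Fmap_sc hℓ h hδ hρ hh hz⟩
    have h2 : 0 < δ * h (sc ℓ z) := mul_pos hδ (hh _)
    have h3 : |ℓ / (2 * Real.pi) * Real.log (‖z‖ / ρ) / (δ * h (sc ℓ z))| < 1 := by
      rw [abs_div, abs_of_pos h2, div_lt_one h2]
      exact h1
    exact abs_lt.1 h3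

theorem exists_bd {ℓ : ℝ} (hℓ : 0 < ℓ) {h : ℝ → ℝ} (hc : Continuous h)
    (hper : ∀ s, h (s + ℓ) = h s) : ∃ K > 0, ∀ s, h s ≤ K := by
  have h1 : Function.Periodic h ℓ := hper
  obtain ⟨K, hK⟩ := (h1.isBounded_of_continuous hℓ.ne' hc).exists_norm_le
  refine ⟨|K| + 1, by positivity, fun s => ?_⟩
  have h2 : ‖h s‖ ≤ K := hK _ (mem_range_self s)
  rw [Real.norm_eq_abs] at h2
  have := le_abs_self (h s)
  have := le_abs_self K
  linarith

theorem contDiffAt_H {ℓ : ℝ} {h : ℝ → ℝ} (hs : ContDiff ℝ ∞ h) (hper : ∀ s, h (s + ℓ) = h s)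
    {z0 : PL} (hz : z0 ≠ 0) : ContDiffAt ℝ ∞ (fun z => h (sc ℓ z)) z0 :=
  contDiffAt_per (fun x : ℝ × PL => h x.1) (fun s _ => hper s) hz fun _ =>
    (hs.comp contDiff_fst).contDiffAt

theorem a1 : A1Statement := by
  intro ℓ hℓ h hs hper hh δ hδ ρ hρ
  have hpi := Real.pi_pos
  have hOm := mem_Om_iff hℓ hper hh hδ hρ
  obtain ⟨K, hK0, hK⟩ := exists_bd hℓ hs.continuous hper
  have hcF : Continuous (Fmap ℓ h δ ρ) := by
    unfold Fmap
    have := hs.continuous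
    fun_prop
  -- the defining function
  set A : PL → ℝ := fun z => ℓ / (2 * Real.pi) * Real.log (‖z‖ / ρ) with hA
  set Bf : PL → ℝ := fun z => δ * h (sc ℓ z) with hB
  have hAs : ∀ z : PL, z ≠ 0 → ContDiffAt ℝ ∞ A z := by
    intro z hz
    have hn : ‖z‖ ≠ 0 := norm_ne_zero_iff.2 hz
    refine contDiffAt_const.mul (ContDiffAt.log ?_ (by positivity))
    exact (contDiffAt_norm ℝ hz).div_const ρ
  have hBs : ∀ z : PL, z ≠ 0 → ContDiffAt ℝ ∞ Bf z := fun z hz =>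
    contDiffAt_const.mul (contDiffAt_H hs hper hz)
  have hB0 : ∀ z, 0 < Bf z := fun z => mul_pos hδ (hh _)
  have hgs : ∀ z : PL, z ≠ 0 → ContDiffAt ℝ ∞ (fun z => A z ^ 2 - Bf z ^ 2) z := fun z hz =>
    ((hAs z hz).pow 2).sub ((hBs z hz).pow 2)
  have hOm' : ∀ z, z ∈ Om ℓ h δ ρ ↔ z ≠ 0 ∧ A z ^ 2 - Bf z ^ 2 < 0 := by
    intro z
    rw [hOm z]
    refine and_congr_right fun _ => ?_
    rw [sub_neg, sq_lt_sq, abs_of_pos (hB0 z)]
  have hopen : IsOpen (Om ℓ h δ ρ) := by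
    rw [isOpen_iff_mem_nhds]
    intro z hz
    obtain ⟨h1, h2⟩ := (hOm' z).1 hz
    have h3 : ∀ᶠ x in 𝓝 z, A x ^ 2 - Bf x ^ 2 < 0 :=
      (hgs z h1).continuousAt.eventually_lt continuousAt_const h2
    filter_upwards [h3, isOpen_ne.mem_nhds h1] with x hx hx'
    exact (hOm' x).2 ⟨hx', hx⟩
  -- bounds of the norm
  have hup : ∀ z ∈ Om ℓ h δ ρ, ‖z‖ ≤ ρ * Real.exp (2 * Real.pi * δ * K / ℓ) := by
    rintro z ⟨⟨s, y⟩, ⟨-, hy⟩, rfl⟩
    rw [norm_Fmap ℓ h δ hρ]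
    refine mul_le_mul_of_nonneg_left (Real.exp_le_exp.2 ?_) hρ.le
    rw [div_le_div_iff_of_pos_right hℓ]
    have h1 : h s * y ≤ K := by
      have := hh s
      have := hK s
      have := hy.2.le
      have h3 : h s * y ≤ h s * 1 := mul_le_mul_of_nonneg_left this (hh s).le
      linarith
    calc 2 * Real.pi * δ * h s * y = (2 * Real.pi * δ) * (h s * y) := by ring
      _ ≤ (2 * Real.pi * δ) * K := mul_le_mul_of_nonneg_left h1 (by positivity)
  have hlow : ∀ z ∈ Om ℓ h δ ρ, ρ * Real.exp (-(2 * Real.pi * δ * K / ℓ)) ≤ ‖z‖ := by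
    rintro z ⟨⟨s, y⟩, ⟨-, hy⟩, rfl⟩
    rw [norm_Fmap ℓ h δ hρ]
    refine mul_le_mul_of_nonneg_left (Real.exp_le_exp.2 ?_) hρ.le
    rw [neg_le_iff_add_nonneg, ← add_div]
    have h1 : 0 ≤ h s * y + K := by
      have := hh s
      have := hK s
      have := hy.1.le
      have h3 : h s * (-1) ≤ h s * y := mul_le_mul_of_nonneg_left this (hh s).le
      linarith
    have h2 : 2 * Real.pi * δ * h s * y + 2 * Real.pi * δ * K =
        (2 * Real.pi * δ) * (h s * y + K) := by ring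
    rw [h2]
    positivity
  refine ⟨hopen, ?_, ?_, ?_⟩
  · rw [isBounded_iff_forall_norm_le]
    exact ⟨_, hup⟩
  · have h1 : IsConnected ((univ : Set ℝ) ×ˢ Ioo (-1:ℝ) 1) :=
      isConnected_univ.prod ⟨⟨0, by norm_num, by norm_num⟩, isPreconnected_Ioo⟩
    exact h1.image _ hcF.continuousOn
  · intro x hx
    have hx0 : x ≠ 0 := by
      have h1 : x ∈ closure (Om ℓ h δ ρ) := frontier_subset_closure hx
      have h2 : closure (Om ℓ h δ ρ) ⊆ {z | ρ * Real.exp (-(2 * Real.pi * δ * K / ℓ)) ≤ ‖z‖} :=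
        closure_minimal hlow (isClosed_le continuous_const continuous_norm)
      have h3 := h2 h1
      rw [mem_ofPred_eq] at h3
      rw [← norm_pos_iff]
      exact lt_of_lt_of_le (by positivity) h3
    have hxn : x ∉ Om ℓ h δ ρ := by
      rw [hopen.frontier_eq] at hx
      exact hx.2
    refine ⟨{z | z ≠ 0}, fun z => A z ^ 2 - Bf z ^ 2, isOpen_ne, hx0,
      fun z hz => (hgs z hz).contDiffWithinAt, ?_, ?_⟩
    · intro hfd
      have hd : HasFDerivAt (fun z => A z ^ 2 - Bf z ^ 2) (0 : PL →L[ℝ] ℝ) x := by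
        rw [← hfd]
        exact ((hgs x hx0).differentiableAt (by simp)).hasFDerivAt
      have hγ : HasDerivAt (fun t : ℝ => Real.exp t • x) x 0 := by
        have := (Real.hasDerivAt_exp 0).smul_const x
        simpa using this
      have hd' : HasFDerivAt (fun z => A z ^ 2 - Bf z ^ 2) (0 : PL →L[ℝ] ℝ)
          ((fun t : ℝ => Real.exp t • x) 0) := by simpa using hd
      have h1 := hd'.comp_hasDerivAt (0:ℝ) hγ
      have hn : 0 < ‖x‖ := norm_pos_iff.2 hx0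
      have hAexp : ∀ t : ℝ, A (Real.exp t • x) = ℓ / (2 * Real.pi) * t + A x := by
        intro t
        simp only [hA]
        rw [norm_smul, Real.norm_of_nonneg (Real.exp_pos t).le, mul_div_assoc,
          Real.log_mul (Real.exp_pos t).ne' (by positivity), Real.log_exp]
        ring
      have hBexp : ∀ t : ℝ, Bf (Real.exp t • x) = Bf x := by
        intro t
        simp only [hB, sc]
        rw [map_smul, Complex.real_smul, Complex.arg_real_mul _ (Real.exp_pos t)]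
      have h2 : HasDerivAt (fun t : ℝ => (ℓ / (2 * Real.pi) * t + A x) ^ 2 - Bf x ^ 2)
          (2 * (ℓ / (2 * Real.pi) * 0 + A x) * (ℓ / (2 * Real.pi))) 0 := by
        have h3 : HasDerivAt (fun t : ℝ => ℓ / (2 * Real.pi) * t + A x) (ℓ / (2 * Real.pi)) 0 := by
          have := ((hasDerivAt_id (0:ℝ)).const_mul (ℓ / (2 * Real.pi))).add_const (A x)
          simpa using this
        have h4 := (h3.pow 2).sub_const (Bf x ^ 2)
        simpa using h4
      have h5 : (fun z => A z ^ 2 - Bf z ^ 2) ∘ (fun t : ℝ => Real.exp t • x) =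
          fun t : ℝ => (ℓ / (2 * Real.pi) * t + A x) ^ 2 - Bf x ^ 2 := by
        funext t
        simp only [Function.comp]
        rw [hAexp, hBexp]
      rw [h5] at h1
      have h6 := h1.unique h2
      simp only [_root_.zero_apply, mul_zero, zero_add] at h6
      have h7 : A x = 0 := by
        have : ℓ / (2 * Real.pi) ≠ 0 := by positivity
        rcases mul_eq_zero.1 h6.symm with h8 | h8
        · linarith
        · exact absurd h8 this
      refine hxn ((hOm' x).2 ⟨hx0, ?_⟩)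
      rw [h7]
      have := hB0 x
      nlinarith
    · ext z
      simp only [mem_inter_iff, mem_ofPred_eq]
      rw [hOm' z]
      tauto

theorem a2 : A2Statement := by
  intro ℓ hℓ h hs hper hh δ hδ ρ hρ Φ hΦ
  have hpi := Real.pi_pos
  obtain ⟨K, hK0, hK⟩ := exists_bd hℓ hs.continuous hper
  set r0 : ℝ := ρ * Real.exp (-(2 * Real.pi * δ * K / ℓ)) with hr0
  have hr0pos : 0 < r0 := by positivity
  set Ψ : ℝ × PL → ℝ := fun x => Φ (x.1, ℓ / (2 * Real.pi) * Real.log (‖x.2‖ / ρ) / (δ * h x.1))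
    with hΨ
  have hΨper : ∀ s z, Ψ (s + ℓ, z) = Ψ (s, z) := by
    intro s z
    simp only [hΨ]
    rw [hper, hΦ.2]
  have hΨs : ∀ z : PL, z ≠ 0 → ∀ s, ContDiffAt ℝ 1 Ψ (s, z) := by
    intro z hz s
    have hn : ‖z‖ ≠ 0 := norm_ne_zero_iff.2 hz
    have h1 : ContDiffAt ℝ 1 (fun x : ℝ × PL => ℓ / (2 * Real.pi) * Real.log (‖x.2‖ / ρ)) (s, z) := by
      refine contDiffAt_const.mul (ContDiffAt.log ?_ (by positivity))
      have h2 : ContDiffAt ℝ 1 (fun x : ℝ × PL => ‖x.2‖) (s, z) :=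
        ContDiffAt.norm ℝ contDiffAt_snd hz
      exact h2.div_const ρ
    have h2 : ContDiffAt ℝ 1 (fun x : ℝ × PL => δ * h x.1) (s, z) :=
      contDiffAt_const.mul ((hs.of_le (by exact_mod_cast le_top)).comp contDiff_fst).contDiffAt
    have h3 : ContDiffAt ℝ 1 (fun x : ℝ × PL => (x.1,
        ℓ / (2 * Real.pi) * Real.log (‖x.2‖ / ρ) / (δ * h x.1))) (s, z) :=
      contDiffAt_fst.prodMk (h1.div h2 (mul_pos hδ (hh _)).ne')
    exact hΦ.1.contDiffAt.comp (s, z) h3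
  refine ⟨fun z => Real.smoothTransition ((‖z‖ - r0 / 2) / (r0 / 2)) * Ψ (sc ℓ z, z), ?_, ?_⟩
  · rw [contDiff_iff_contDiffAt]
    intro z
    by_cases hz : z = 0
    · subst hz
      refine (contDiffAt_const (c := (0:ℝ))).congr_of_eventuallyEq ?_
      have h1 : ∀ᶠ z : PL in 𝓝 0, ‖z‖ < r0 / 2 := by
        have : ContinuousAt (fun z : PL => ‖z‖) 0 := continuous_norm.continuousAt
        exact this.eventually_lt continuousAt_const (by simpa using half_pos hr0pos)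
      filter_upwards [h1] with z hz
      rw [Real.smoothTransition.zero_of_nonpos, zero_mul]
      rw [div_nonpos_iff]
      right
      constructor
      · linarith
      · positivity
    · have h1 : ContDiffAt ℝ 1 (fun z : PL => (‖z‖ - r0 / 2) / (r0 / 2)) z :=
        (((contDiffAt_norm ℝ hz)).sub contDiffAt_const).div_const _
      have h2 : ContDiff ℝ 1 Real.smoothTransition := Real.smoothTransition.contDiff (n := 1)
      exact (h2.contDiffAt.comp z h1).mul (contDiffAt_per Ψ hΨper hz (hΨs z hz))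
  · intro s y hy
    obtain ⟨k, hk⟩ := sc_Fmap hℓ h δ hρ s y
    have hy1 : r0 ≤ ‖Fmap ℓ h δ ρ (s, y)‖ := by
      rw [norm_Fmap ℓ h δ hρ]
      refine mul_le_mul_of_nonneg_left (Real.exp_le_exp.2 ?_) hρ.le
      rw [neg_le_iff_add_nonneg, ← add_div]
      have h1 : 0 ≤ h s * y + K := by
        have := hh s
        have := hK s
        have := hy.1.le
        have h3 : h s * (-1) ≤ h s * y := mul_le_mul_of_nonneg_left this (hh s).le
        linarith
      have h2 : 2 * Real.pi * δ * h s * y + 2 * Real.pi * δ * K =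
          (2 * Real.pi * δ) * (h s * y + K) := by ring
      rw [h2]
      positivity
    beta_reduce
    rw [Real.smoothTransition.one_of_one_le, one_mul, hk, per_int hΨper]
    · simp only [hΨ]
      rw [norm_Fmap ℓ h δ hρ]
      have e1 : ρ * Real.exp (2 * Real.pi * δ * h s * y / ℓ) / ρ =
          Real.exp (2 * Real.pi * δ * h s * y / ℓ) := by field_simp
      have e2 : ℓ / (2 * Real.pi) * (2 * Real.pi * δ * h s * y / ℓ) / (δ * h s) = y := by
        have := hh s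
        field_simp
      rw [e1, Real.log_exp, e2]
    · rw [one_le_div (by positivity)]
      linarith

end Pool.Agent.Lib.MP_e46711_an.H70
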